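import Pool.Agent.Results.MP_00f856_co.LogConcave

set_option autoImplicit false

/-!
# Log-concavity of the f-vectors of the order polytopes of the face lattices of polygons

`crownPoly n` is the f-polynomial of the order polytope of the crown poset with `2 n` elements
(known face number formula), and `latticePoly n = (1 + t)^2 * crownPoly n` is the f-polynomial of
the order polytope of the face lattice of the `n`-gon.
-/

open Finset Polynomial

namespace Pool.Agent.Results.MP_6e91db_co.PolygonLattice

/-- The number `N_n(r,s) = (2 n / r) C(r, 2 s) C(n + s - 1, r - 1)`. -/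
def N (n r s : ℕ) : ℚ :=
  2 * n / r * (r.choose (2 * s)) * ((n + s - 1).choose (r - 1))

/-- The binomial coefficient `C(a, r - k)`, which is zero when `k > r`. -/
def binSub (a r k : ℕ) : ℕ := if k ≤ r then a.choose (r - k) else 0

/-- The number of `k`-dimensional faces of the order polytope of the crown poset with `2 n`
elements (known formula). -/
def crownFaces (n k : ℕ) : ℚ :=
  (if k = 0 then 2 else if k = 1 then 1 else 0) +
    ∑ s ∈ Icc 1 n, ∑ r ∈ Icc (2 * s) (2 * n), N n r s * binSub (2 * s) r k

/-- The f-polynomial `∑_{i ≥ -1} f_i t^{i+1}` of the order polytope of the crown poset. -/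
noncomputable def crownPoly (n : ℕ) : ℚ[X] :=
  1 + ∑ k ∈ range (2 * n + 1), C (crownFaces n k) * X ^ (k + 1)

/-- The f-polynomial of the order polytope of the face lattice of the `n`-gon: two pyramids over
the order polytope of the crown poset. -/
noncomputable def latticePoly (n : ℕ) : ℚ[X] := (1 + X) ^ 2 * crownPoly n

/-- positive coefficients up to degree `d`, zero afterwards, and log-concave -/
structure LC (p : ℚ[X]) (d : ℕ) : Prop where
  pos : ∀ k, k ≤ d → 0 < p.coeff k
  zero : ∀ k, d < k → p.coeff k = 0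
  lc : ∀ k, p.coeff k * p.coeff (k + 2) ≤ p.coeff (k + 1) ^ 2

lemma LC.nonneg {p : ℚ[X]} {d : ℕ} (h : LC p d) (k : ℕ) : 0 ≤ p.coeff k := by
  rcases le_or_gt k d with hk | hk
  · exact (h.pos k hk).le
  · exact (h.zero k hk).ge

lemma LC.cross {p : ℚ[X]} {d : ℕ} (h : LC p d) (k : ℕ) :
    p.coeff k * p.coeff (k + 3) ≤ p.coeff (k + 1) * p.coeff (k + 2) := by
  have n0 := h.nonneg k
  have n1 := h.nonneg (k + 1)
  have n2 := h.nonneg (k + 2)
  have n3 := h.nonneg (k + 3)
  rcases le_or_gt (k + 2) d with hk | hk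
  · have p1 := h.pos (k + 1) (by omega)
    have p2 := h.pos (k + 2) hk
    have l1 := h.lc k
    have l2 := h.lc (k + 1)
    rw [show k + 1 + 2 = k + 3 from rfl, show k + 1 + 1 = k + 2 from rfl] at l2
    have hm : (p.coeff k * p.coeff (k + 2)) * (p.coeff (k + 1) * p.coeff (k + 3)) ≤
        p.coeff (k + 1) ^ 2 * p.coeff (k + 2) ^ 2 := by
      apply mul_le_mul l1 l2 <;> positivity
    have hm' : (p.coeff (k + 1) * p.coeff (k + 2)) * (p.coeff k * p.coeff (k + 3)) ≤
        (p.coeff (k + 1) * p.coeff (k + 2)) * (p.coeff (k + 1) * p.coeff (k + 2)) := by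
      nlinarith [hm]
    exact le_of_mul_le_mul_left hm' (by positivity)
  · rw [h.zero (k + 3) (by omega), mul_zero]
    positivity

lemma LC.mul {p : ℚ[X]} {d : ℕ} (h : LC p d) : LC ((1 + X) * p) (d + 1) := by
  have c0 : ((1 + X) * p).coeff 0 = p.coeff 0 := by
    simp [add_mul]
  have cs : ∀ k, ((1 + X) * p).coeff (k + 1) = p.coeff (k + 1) + p.coeff k := by
    intro k
    rw [add_mul, one_mul, coeff_add, coeff_X_mul]
  refine ⟨?_, ?_, ?_⟩
  · rintro (_ | k) hk
    · rw [c0]; exact h.pos 0 (by omega)
    · rw [cs]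
      exact add_pos_of_nonneg_of_pos (h.nonneg _) (h.pos k (by omega))
  · rintro (_ | k) hk
    · omega
    · rw [cs, h.zero k (by omega), h.zero (k + 1) (by omega), add_zero]
  · rintro (_ | k)
    · rw [c0, show 0 + 2 = 1 + 1 from rfl, cs, cs]
      have h0 := h.nonneg 0
      have h1 := h.nonneg 1
      have h2 := h.nonneg 2
      have l0 := h.lc 0
      simp only [zero_add] at l0 ⊢
      rw [show 1 + 1 = 2 from rfl]
      nlinarith
    · rw [cs, show k + 1 + 2 = k + 2 + 1 from rfl, cs, cs]
      have h0 := h.nonneg k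
      have h1 := h.nonneg (k + 1)
      have h2 := h.nonneg (k + 2)
      have h3 := h.nonneg (k + 3)
      have l0 := h.lc k
      have l1 := h.lc (k + 1)
      have l2 := h.cross k
      rw [show k + 1 + 2 = k + 3 from rfl, show k + 1 + 1 = k + 2 from rfl] at l1
      rw [show k + 2 + 1 = k + 3 from rfl, show k + 1 + 1 = k + 2 from rfl]
      nlinarith

lemma coeff_crownPoly (n j : ℕ) : (crownPoly n).coeff j =
    if j = 0 then 1 else if j ≤ 2 * n + 1 then crownFaces n (j - 1) else 0 := by
  unfold crownPoly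
  rw [coeff_add, finsetSum_coeff]
  rcases j with _ | j
  · rw [coeff_one_zero, if_pos rfl, Finset.sum_eq_zero, add_zero]
    intro k _
    rw [coeff_C_mul, coeff_X_pow, if_neg (by omega), mul_zero]
  · rw [coeff_one, if_neg (by omega), zero_add, if_neg (by omega)]
    by_cases hj : j + 1 ≤ 2 * n + 1
    · rw [if_pos hj, Finset.sum_eq_single j]
      · rw [coeff_C_mul, coeff_X_pow, if_pos rfl, mul_one, Nat.add_sub_cancel]
      · intro k _ hk
        rw [coeff_C_mul, coeff_X_pow, if_neg (by omega), mul_zero]
      · intro hc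
        exact absurd (mem_range.2 (by omega)) hc
    · rw [if_neg hj]
      apply Finset.sum_eq_zero
      intro k hk
      rw [mem_range] at hk
      rw [coeff_C_mul, coeff_X_pow, if_neg (by omega), mul_zero]

lemma lc_crown (n : ℕ) (hn : 1 ≤ n) : LC (crownPoly n) (2 * n + 1) := by
  have h := Pool.Agent.Results.MP_00f856_co.LogConcave.result n hn
  have he : ∀ j, j ≤ 2 * n + 1 → (crownPoly n).coeff j =
      Pool.Agent.Results.MP_00f856_co.LogConcave.fVector n j := by
    intro j hj
    rw [coeff_crownPoly, Pool.Agent.Results.MP_00f856_co.LogConcave.fVector]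
    split_ifs
    · rfl
    · rfl
  refine ⟨?_, ?_, ?_⟩
  · intro k hk
    rw [he k hk]
    exact h.1 k hk
  · intro k hk
    rw [coeff_crownPoly, if_neg (by omega), if_neg (by omega)]
  · intro k
    by_cases hk : k + 2 ≤ 2 * n + 1
    · rw [he _ hk, he (k + 1) (by omega), he k (by omega)]
      exact h.2.2.1 (k + 1) (by omega) (by omega)
    · rw [coeff_crownPoly n (k + 2), if_neg (by omega), if_neg hk, mul_zero]
      positivity

/-- **The f-vector of the order polytope of the face lattice of every polygon is log-concave.**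
Entry `i` of the f-vector `(f_{-1}, f_0, ..., f_{2n+2})` is the coefficient of `t^{i+1}` in
`latticePoly n`. -/
theorem result (n : ℕ) (hn : 3 ≤ n) :
    (∀ i, i ≤ 2 * n + 3 → 0 < (latticePoly n).coeff i) ∧
    (latticePoly n).coeff 0 = 1 ∧ (latticePoly n).coeff (2 * n + 3) = 1 ∧
    (latticePoly n).natDegree = 2 * n + 3 ∧
    ∀ i, 0 < i → i < 2 * n + 3 →
      (latticePoly n).coeff (i - 1) * (latticePoly n).coeff (i + 1) ≤
        (latticePoly n).coeff i ^ 2 := by
  have h0 := lc_crown n (by omega)
  have h1 : LC (latticePoly n) (2 * n + 1 + 1 + 1) := by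
    unfold latticePoly
    rw [pow_two, mul_assoc]
    exact h0.mul.mul
  have cs : ∀ (p : ℚ[X]) (k : ℕ), ((1 + X) * p).coeff (k + 1) = p.coeff (k + 1) + p.coeff k := by
    intro p k
    rw [add_mul, one_mul, coeff_add, coeff_X_mul]
  refine ⟨fun i hi => h1.pos i (by omega), ?_, ?_, ?_, ?_⟩
  · unfold latticePoly
    rw [pow_two, mul_assoc]
    have : (crownPoly n).coeff 0 = 1 := by rw [coeff_crownPoly, if_pos rfl]
    simp [add_mul, this]
  · have hz : ∀ k, 2 * n + 1 < k → (crownPoly n).coeff k = 0 := h0.zero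
    have hz' : ∀ k, 2 * n + 1 + 1 < k → ((1 + X) * crownPoly n).coeff k = 0 := h0.mul.zero
    unfold latticePoly
    rw [pow_two, mul_assoc, show 2 * n + 3 = 2 * n + 1 + 1 + 1 from rfl, cs, hz' _ (by omega),
      zero_add, cs, hz _ (by omega), zero_add]
    have h := Pool.Agent.Results.MP_00f856_co.LogConcave.result n (by omega)
    rw [coeff_crownPoly, if_neg (by omega), if_pos le_rfl]
    have h2 := h.2.1
    rw [Pool.Agent.Results.MP_00f856_co.LogConcave.fVector, if_neg (by omega)] at h2
    exact h2
  · apply natDegree_eq_of_le_of_coeff_ne_zero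
    · rw [natDegree_le_iff_coeff_eq_zero]
      intro k hk
      exact h1.zero k (by omega)
    · exact (h1.pos _ (by omega)).ne'
  · rintro (_ | i) hi0 hi
    · omega
    · exact h1.lc i

end Pool.Agent.Results.MP_6e91db_co.PolygonLattice
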